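import Pool.Agent.helper1.UN.SpecU

/-!
# unh:VLB: lower bound of `Sq`, summability of Gaussians over an ideal
-/

set_option autoImplicit false

open NumberField Complex MeasureTheory NumberField.Units NumberField.Units.dirichletUnitTheorem

open scoped Classical

namespace Pool.Agent.UN

/-- some absolute value of a nonzero integer is at least `1` -/
theorem VLB_ex (hPRO : PRO_stmt) (K : Type) [Field K] [NumberField K] (x : 𝓞 K) (hx : x ≠ 0) :
    ∃ w : InfinitePlace K, 1 ≤ w (x : K) := by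
  obtain ⟨h1, h2, h3⟩ := (hPRO K).2.2.2.1 x hx
  by_contra h
  push Not at h
  have h4 : ∑ w : InfinitePlace K, (w.mult : ℝ) * Real.log (w (x : K)) < 0 := by
    refine Finset.sum_neg (fun w _ => ?_) ⟨Classical.arbitrary _, Finset.mem_univ _⟩
    have h5 : 0 < (w.mult : ℝ) := by exact_mod_cast InfinitePlace.mult_pos
    exact mul_neg_of_pos_of_neg h5 (Real.log_neg (h2 w) (h w))
  have h6 : 0 ≤ Real.log (Nm (Ideal.span {x})) := Real.log_nonneg h1
  linarith

theorem VLB (hPNF : PNF_stmt) (hPRO : PRO_stmt) : VLB_stmt := by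
  intro K _ _
  refine ⟨fun x hx => ?_, fun b r hb hr => ?_⟩
  · obtain ⟨w, hw⟩ := VLB_ex hPRO K x hx
    have h1 : (1 : ℝ) ≤ (w.mult : ℝ) := by exact_mod_cast InfinitePlace.one_le_mult
    have h2 : (w.mult : ℝ) * (w (x : K)) ^ 2 ≤ Sq x := by
      unfold Sq
      exact Finset.single_le_sum (f := fun w : InfinitePlace K => (w.mult : ℝ) * (w (x : K)) ^ 2)
        (fun w' _ => by positivity) (Finset.mem_univ w)
    nlinarith
  · have h := (hPNF K b 0 (fun _ => 0) (fun _ => 0) (fun _ => r / Real.pi) hb (fun _ _ => rfl) (fun _ => by omega)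
      (fun _ _ => rfl) (fun _ => by positivity)).1
    have h1 : (fun x : b => Pm (fun _ => 0) (fun _ => 0) (((x : 𝓞 K) + 0 : 𝓞 K) : K) *
        (Ga (fun _ => r / Real.pi) (((x : 𝓞 K) + 0 : 𝓞 K) : K) : ℂ)) =
        fun x : b => ((Real.exp (-(r * Sq (x : 𝓞 K))) : ℝ) : ℂ) := by
      funext x
      have e1 : Pm (fun _ => 0) (fun _ => 0) (((x : 𝓞 K) + 0 : 𝓞 K) : K) = 1 := by
        unfold Pm
        simp
      have e2 : Ga (fun _ => r / Real.pi) (((x : 𝓞 K) + 0 : 𝓞 K) : K) = Real.exp (-(r * Sq (x : 𝓞 K))) := by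
        unfold Ga Sq
        rw [add_zero]
        congr 2
        rw [Finset.mul_sum, Finset.mul_sum]
        refine Finset.sum_congr rfl fun w _ => ?_
        have hpi : Real.pi ≠ 0 := Real.pi_ne_zero
        field_simp
      rw [e1, e2, one_mul]
    rw [h1] at h
    exact Complex.summable_ofReal.1 h

end Pool.Agent.UN
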